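import Pool.Agent.Lib.MP_95b053_co.Q.Dich
import Pool.Agent.Lib.MP_95b053_co.MAS.Spec

/-!
# Many translations: many collinear points, sharp exponent
-/

set_option autoImplicit false

namespace Pool.Agent.QQ95

open Finset
open scoped Pointwise

/-- **Case B**, sharp exponent. -/
theorem caseB2 (X S : Finset Hg) (K K' C0 θ : ℝ) (hK : 1 ≤ K)
    (hXne : X.Nonempty) (hK' : 2 * K * (2 * K ^ 2) ^ 9 ≤ K')
    (hF : ∀ V : Finset (ℝ × ℝ × ℝ), V.Nonempty → ((V - V).card : ℝ) ≤ K' * V.card →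
      ∃ (a0 v : ℝ × ℝ × ℝ) (T : Finset (ℝ × ℝ × ℝ)), T ⊆ V ∧
        (∀ q ∈ T, ∃ s : ℝ, q = a0 + s • v) ∧ (V.card : ℝ) ^ θ ≤ C0 * T.card)
    (hC0 : 0 < C0)
    (h1 : (1 : Hg) ∈ S) (hS : ∀ g ∈ S, g⁻¹ ∈ S) (hXS : (X.card : ℝ) ≤ 2 * K * S.card)
    (hgr : ∀ m : ℕ, ((S ^ m * X).card : ℝ) ≤ (2 * K ^ 2) ^ m * X.card) :
    ∃ p v : ℝ × ℝ × ℝ, ∃ T ⊆ X, (∀ x ∈ T, ∃ s : ℝ, x.u = p + s • v) ∧
      ((trs S 4).card : ℝ) ^ θ ≤ C0 * (2 * (2 * K ^ 2) ^ 8) * T.card := by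
  classical
  set U := (trs S 4).image Hg.u with hU
  have hUinj : Set.InjOn Hg.u ((trs S 4 : Finset Hg) : Set Hg) := by
    intro a ha b hb h
    exact Hg.ext (by rw [(mem_trs.1 (Finset.mem_coe.1 ha)).2, (mem_trs.1 (Finset.mem_coe.1 hb)).2])
      h
  have hUcard : U.card = (trs S 4).card := Finset.card_image_of_injOn hUinj
  have hUne : U.Nonempty := by
    rw [← Finset.card_pos, hUcard]
    exact Finset.card_pos.2 ⟨1, mem_trs.2 ⟨one_mem_pow h1 4, rfl⟩⟩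
  have hUd : ∀ u ∈ U, tr u ∈ S ^ 4 := by
    intro u hu
    obtain ⟨g, hg, rfl⟩ := Finset.mem_image.1 hu
    have h2 := mem_trs.1 hg
    have : tr g.u = g := Hg.ext h2.2.symm rfl
    rw [this]
    exact h2.1
  have hdiff : ((U - U).card : ℝ) ≤ K' * U.card := by
    have hsub : U - U ⊆ (trs S 8).image Hg.u := by
      intro w hw
      obtain ⟨a, ha, b, hb, rfl⟩ := Finset.mem_sub.1 hw
      refine Finset.mem_image.2 ⟨tr a * (tr b)⁻¹, mem_trs.2 ⟨?_, ?_⟩, ?_⟩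
      · exact mem_pow_add (hUd a ha) (inv_mem_pow hS 4 _ (hUd b hb))
      · rw [Hg.mul_r, Hg.inv_r]
        simp [tr]
      · rw [Hg.mul_u_of_one (by rfl), Hg.inv_u_of_one (by rfl)]
        simp only [tr]
        abel
    calc ((U - U).card : ℝ) ≤ ((trs S 8).image Hg.u).card := by
          exact_mod_cast Finset.card_le_card hsub
      _ ≤ (trs S 8).card := by exact_mod_cast Finset.card_image_le
      _ ≤ 2 * K * (2 * K ^ 2) ^ 9 * (trs S 4).card :=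
          trs_eight X S K hK hXne h1 hS hXS hgr
      _ = (2 * K * (2 * K ^ 2) ^ 9) * U.card := by rw [hUcard]
      _ ≤ K' * U.card := mul_le_mul_of_nonneg_right hK' (Nat.cast_nonneg _)
  obtain ⟨a0, v, T, hTU, hTl, hTc⟩ := hF U hUne hdiff
  rw [hUcard] at hTc
  have hTne : T.Nonempty := by
    rw [← Finset.card_pos]
    by_contra hcon
    have h2 : T.card = 0 := by omega
    rw [h2, Nat.cast_zero, mul_zero] at hTc
    have h3 : (0 : ℝ) < ((trs S 4).card : ℝ) := by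
      have : 0 < (trs S 4).card := Finset.card_pos.2 ⟨1, mem_trs.2 ⟨one_mem_pow h1 4, rfl⟩⟩
      exact_mod_cast this
    have h4 : 0 < ((trs S 4).card : ℝ) ^ θ := Real.rpow_pos_of_pos h3 θ
    linarith
  obtain ⟨t0, ht0⟩ := hTne
  obtain ⟨s0, hs0⟩ := hTl t0 ht0
  set Q := T.image fun t => tr (t - t0) with hQ
  have hQcard : Q.card = T.card := by
    rw [hQ, Finset.card_image_of_injective]
    intro a b h
    have := congrArg Hg.u h
    exact sub_left_injective this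
  have hQS : ∀ d ∈ Q, d ∈ S ^ 8 := by
    intro d hd
    obtain ⟨t, ht, rfl⟩ := Finset.mem_image.1 hd
    have h2 : tr (t - t0) = tr t * (tr t0)⁻¹ := by
      apply Hg.ext
      · simp [tr, Hg.mul_r, Hg.inv_r]
      · rw [Hg.mul_u_of_one (by rfl), Hg.inv_u_of_one (by rfl)]
        simp only [tr]
        abel
    rw [h2]
    exact mem_pow_add (i := 4) (j := 4) (hUd t (hTU ht)) (inv_mem_pow hS 4 _ (hUd t0 (hTU ht0)))
  obtain ⟨w, hw⟩ := pre Q X X (S ^ 8 * X) ((2 * K ^ 2) ^ 8) (Finset.Subset.refl _) hXne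
    (fun d hd x hx => Finset.mul_mem_mul (hQS d hd) hx) (hgr 8) (by omega)
  set N := (Q ×ˢ X).filter fun p => (p.1 * p.2).u = w with hN
  have hNd : ∀ p ∈ N, ∃ t ∈ T, p.1 = tr (t - t0) ∧ p.2 ∈ X ∧ (t - t0) + p.2.u = w := by
    intro p hp
    obtain ⟨h5, h6⟩ := Finset.mem_filter.1 hp
    obtain ⟨h7, h8⟩ := Finset.mem_product.1 h5
    obtain ⟨t, ht, hj⟩ := Finset.mem_image.1 h7
    refine ⟨t, ht, hj.symm, h8, ?_⟩
    rw [← h6, ← hj, Hg.mul_u_of_one (by rfl)]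
    rfl
  refine ⟨w, v, N.image fun p => p.2, ?_, ?_, ?_⟩
  · intro x hx
    obtain ⟨p, hp, rfl⟩ := Finset.mem_image.1 hx
    obtain ⟨_, _, _, h, _⟩ := hNd p hp
    exact h
  · intro x hx
    obtain ⟨p, hp, rfl⟩ := Finset.mem_image.1 hx
    obtain ⟨t, ht, _, _, h⟩ := hNd p hp
    obtain ⟨s, hs⟩ := hTl t ht
    refine ⟨s0 - s, ?_⟩
    rw [← h, hs, hs0]
    module
  · have hinj2 : Set.InjOn (fun p : Hg × Hg => p.2) (N : Set (Hg × Hg)) := by
      intro p hp q hq he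
      simp only at he
      obtain ⟨t, _, h5, _, h6⟩ := hNd p (Finset.mem_coe.1 hp)
      obtain ⟨t', _, h7, _, h8⟩ := hNd q (Finset.mem_coe.1 hq)
      refine Prod.ext ?_ he
      rw [h5, h7]
      have h9 : t - t0 = t' - t0 := by
        rw [← h8, he] at h6
        exact add_right_cancel h6
      rw [h9]
    rw [Finset.card_image_of_injOn hinj2]
    rw [hQcard] at hw
    calc ((trs S 4).card : ℝ) ^ θ ≤ C0 * T.card := hTc
      _ ≤ C0 * (2 * (2 * K ^ 2) ^ 8 * N.card) := mul_le_mul_of_nonneg_left hw hC0.le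
      _ = C0 * (2 * (2 * K ^ 2) ^ 8) * N.card := by ring

/-- The dichotomy, sharp exponent. -/
theorem dich2 (K K' C0 θ : ℝ) (hK1 : 1 ≤ K) (hK' : 2 * K * (2 * K ^ 2) ^ 9 ≤ K')
    (hF : ∀ V : Finset (ℝ × ℝ × ℝ), V.Nonempty → ((V - V).card : ℝ) ≤ K' * V.card →
      ∃ (a0 v : ℝ × ℝ × ℝ) (T : Finset (ℝ × ℝ × ℝ)), T ⊆ V ∧
        (∀ q ∈ T, ∃ s : ℝ, q = a0 + s • v) ∧ (V.card : ℝ) ^ θ ≤ C0 * T.card)
    (hC0 : 0 < C0) (hθ0 : 0 ≤ θ) (hθ1 : θ ≤ 1) :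
    ∃ C1 : ℝ, 0 < C1 ∧ ∀ (X : Finset Hg) (r : ℝ), X.Nonempty → 1 ≤ r →
      Set.InjOn Hg.u (X : Set Hg) → ((X⁻¹ * X).card : ℝ) ≤ K * X.card →
      (∀ (p v : ℝ × ℝ × ℝ), ∀ T ⊆ X, (∀ x ∈ T, ∃ s : ℝ, x.u = p + s • v) → (T.card : ℝ) ≤ r) →
      (Real.sqrt X.card) ^ θ ≤ C1 * r := by
  set C1 : ℝ := 2 * K + 16 * K ^ 5 + C0 * (2 * (2 * K ^ 2) ^ 8) with hC1
  have hA : 0 ≤ 2 * K := by linarith
  have hB : 0 ≤ 16 * K ^ 5 := by positivity
  have hC : 0 ≤ C0 * (2 * (2 * K ^ 2) ^ 8) := by positivity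
  refine ⟨C1, by positivity, fun X r hXne hr hinj hK hline => ?_⟩
  have hr0 : 0 < r := by linarith
  have hX1 : (1 : ℝ) ≤ Real.sqrt X.card := by
    rw [Real.one_le_sqrt]
    exact_mod_cast hXne.card_pos
  have hpow : (Real.sqrt X.card) ^ θ ≤ Real.sqrt X.card := by
    calc (Real.sqrt X.card) ^ θ ≤ (Real.sqrt X.card) ^ (1 : ℝ) :=
          Real.rpow_le_rpow_of_exponent_le hX1 hθ1
      _ = Real.sqrt X.card := Real.rpow_one _
  rcases lt_or_ge (Real.sqrt X.card) (2 * K) with hsm | hbig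
  · calc (Real.sqrt X.card) ^ θ ≤ 2 * K := hpow.trans hsm.le
      _ ≤ C1 * 1 := by rw [hC1]; linarith
      _ ≤ C1 * r := mul_le_mul_of_nonneg_left hr (by positivity)
  · obtain ⟨S, h1, hS, hXS, hgr⟩ := popq X K hXne hK
    rcases lt_or_ge ((trs S 4).card : ℝ) (Real.sqrt X.card) with hfew | hmany
    · obtain ⟨p, v, T, hT, hTl, hTc⟩ := caseA X S K hK1 hinj h1 hS hXS hgr hbig hfew
      have hTr := hline p v T hT hTl
      calc (Real.sqrt X.card) ^ θ ≤ 16 * K ^ 5 * T.card := hpow.trans hTc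
        _ ≤ 16 * K ^ 5 * r := mul_le_mul_of_nonneg_left hTr hB
        _ ≤ C1 * r := mul_le_mul_of_nonneg_right (by rw [hC1]; linarith) hr0.le
    · obtain ⟨p, v, T, hT, hTl, hTc⟩ :=
        caseB2 X S K K' C0 θ hK1 hXne hK' hF hC0 h1 hS hXS hgr
      have hTr := hline p v T hT hTl
      calc (Real.sqrt X.card) ^ θ ≤ ((trs S 4).card : ℝ) ^ θ :=
            Real.rpow_le_rpow (by positivity) hmany hθ0
        _ ≤ C0 * (2 * (2 * K ^ 2) ^ 8) * T.card := hTc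
        _ ≤ C0 * (2 * (2 * K ^ 2) ^ 8) * r := mul_le_mul_of_nonneg_left hTr hC
        _ ≤ C1 * r := mul_le_mul_of_nonneg_right (by rw [hC1]; linarith) hr0.le

end Pool.Agent.QQ95
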