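import Pool.Agent.Lib.MP_95b053_co.Q.MainQ
import Pool.Agent.Lib.MP_95b053_co.Q2.Mid2

/-!
# Complete quadrilaterals: the main theorem with the sharp exponent
-/

set_option autoImplicit false

namespace Pool.Agent.QQ95

open Finset

theorem mainQ2 (hFin : Pool.Agent.MAS.S_Fin) (k : ℕ) (c : ℝ) (hc : 0 < c) (hc1 : c ≤ 1) :
    ∃ n0 : ℕ, ∀ (P : Finset (ℝ × ℝ)) (T : Finset (Finset (ℝ × ℝ))), n0 ≤ P.card →
    (∀ t ∈ T, t ⊆ P ∧ t.card = 3 ∧ Collinear ℝ (t : Set (ℝ × ℝ))) →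
    (∀ p q : ℝ × ℝ, p ≠ q → (T.filter fun t => p ∈ t ∧ q ∈ t).card ≤ k) →
    c * (P.card : ℝ) ^ 3 ≤ ({q : Fin 6 → ℝ × ℝ | Quad T q}.ncard : ℝ) →
    ∃ L : AffineSubspace ℝ (ℝ × ℝ), Module.finrank ℝ L.direction = 1 ∧
      (P.card : ℝ) ^ (1 / (120000 * Real.logb 2 (2 * k / c))) ≤
        (((P : Set (ℝ × ℝ)) ∩ (L : Set (ℝ × ℝ))).ncard : ℝ) := by
  classical
  -- the choice of the quadrilaterals
  have hstart : ∀ (P : Finset (ℝ × ℝ)) (T : Finset (Finset (ℝ × ℝ))),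
      (∀ t ∈ T, t ⊆ P ∧ t.card = 3 ∧ Collinear ℝ (t : Set (ℝ × ℝ))) →
      (∀ p q : ℝ × ℝ, p ≠ q → (T.filter fun t => p ∈ t ∧ q ∈ t).card ≤ k) →
      c * (P.card : ℝ) ^ 3 ≤ ({q : Fin 6 → ℝ × ℝ | Quad T q}.ncard : ℝ) →
      ∃ Θ : Finset (Fin 6 → ℝ × ℝ), c * (P.card : ℝ) ^ 3 ≤ (k : ℝ) ^ 7 * Θ.card ∧ Good P Θ := by
    intro P T hT hk hq
    have hfin : {q : Fin 6 → ℝ × ℝ | Quad T q}.Finite := by
      apply (Fintype.piFinset fun _ : Fin 6 => P).finite_toSet.subset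
      intro q hq
      rw [Finset.mem_coe, Fintype.mem_piFinset]
      intro i
      have m1 := (hT _ hq.2.1).1
      have m2 := (hT _ hq.2.2.1).1
      have m3 := (hT _ hq.2.2.2.1).1
      fin_cases i
      · exact m1 (by simp)
      · exact m1 (by simp)
      · exact m2 (by simp)
      · exact m1 (by simp)
      · exact m2 (by simp)
      · exact m3 (by simp)
    rw [Set.ncard_eq_toFinset_card _ hfin] at hq
    obtain ⟨Θ, hcard, hG⟩ := picks P T k hT hk hfin.toFinset (by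
      intro q hq
      exact (Set.Finite.mem_toFinset hfin).1 hq)
    have h3 : ((hfin.toFinset.card : ℕ) : ℝ) ≤ (k : ℝ) ^ 7 * Θ.card := by exact_mod_cast hcard
    exact ⟨Θ, hq.trans h3, hG⟩
  rcases Nat.eq_zero_or_pos k with hk0 | hk0
  · refine ⟨1, fun P T hn hT hk hq => ?_⟩
    obtain ⟨Θ, h1, _⟩ := hstart P T hT hk hq
    rw [hk0] at h1
    have hn0 : (0 : ℝ) < P.card := by
      have : 0 < P.card := by omega
      exact_mod_cast this
    have : 0 < c * (P.card : ℝ) ^ 3 := by positivity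
    simp only [Nat.cast_zero, ne_eq, OfNat.ofNat_ne_zero, not_false_eq_true, zero_pow,
      zero_mul] at h1
    linarith
  have hk1 : (1 : ℝ) ≤ k := by exact_mod_cast hk0
  have hk0' : (0 : ℝ) < k := by linarith
  set u : ℝ := 2 * k / c with hu
  have hu2 : 2 ≤ u := by
    rw [hu, le_div_iff₀ hc]
    nlinarith
  have hu0 : 0 < u := by linarith
  have hu1 : 1 ≤ u := by linarith
  set η : ℝ := c / k ^ 7 with hη
  have hη0 : 0 < η := by positivity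
  have hηu : (u ^ 7)⁻¹ ≤ η := by
    rw [hη, hu, div_pow, inv_div, mul_pow, div_le_div_iff₀ (by positivity) (by positivity)]
    have h3 : c ^ 7 ≤ c := by
      calc c ^ 7 ≤ c ^ 1 := pow_le_pow_of_le_one hc.le hc1 (by norm_num)
        _ = c := pow_one c
    have h4 : (0 : ℝ) ≤ (k : ℝ) ^ 7 := by positivity
    nlinarith
  set α : ℝ := η ^ 8 / 4 with hα
  have hα0 : 0 < α := by positivity
  have hαu : (u ^ 58)⁻¹ ≤ α := by
    have h3 : ((u ^ 7)⁻¹) ^ 8 ≤ η ^ 8 := pow_le_pow_left₀ (by positivity) hηu 8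
    have h4 : (u ^ 58)⁻¹ ≤ ((u ^ 7)⁻¹) ^ 8 / 4 := by
      rw [inv_pow, ← pow_mul, div_eq_mul_inv, ← mul_inv]
      apply inv_anti₀ (by positivity)
      have h5 : (4 : ℝ) ≤ u ^ 2 := by nlinarith
      calc u ^ (7 * 8) * 4 ≤ u ^ (7 * 8) * u ^ 2 := mul_le_mul_of_nonneg_left h5 (by positivity)
        _ = u ^ 58 := by rw [← pow_add]
    rw [hα]
    linarith
  have hKα : (2 : ℝ) ^ 18 ≤ u ^ 366 * α ^ 6 := by
    have h3 : ((u ^ 58)⁻¹) ^ 6 ≤ α ^ 6 := pow_le_pow_left₀ (by positivity) hαu 6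
    have h4 : u ^ 366 * ((u ^ 58)⁻¹) ^ 6 = u ^ 18 := by
      rw [inv_pow, ← pow_mul, show (366 : ℕ) = 18 + 58 * 6 by norm_num, pow_add]
      field_simp
    calc (2 : ℝ) ^ 18 ≤ u ^ 18 := pow_le_pow_left₀ (by norm_num) hu2 18
      _ = u ^ 366 * ((u ^ 58)⁻¹) ^ 6 := h4.symm
      _ ≤ u ^ 366 * α ^ 6 := mul_le_mul_of_nonneg_left h3 (by positivity)
  have hK1 : (1 : ℝ) ≤ u ^ 366 := one_le_pow₀ hu1
  have hK' : 2 * u ^ 366 * (2 * (u ^ 366) ^ 2) ^ 9 ≤ u ^ 6964 := by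
    have h5 : 2 * u ^ 366 * (2 * (u ^ 366) ^ 2) ^ 9 = 2 ^ 10 * u ^ 6954 := by
      rw [mul_pow, ← pow_mul, ← pow_mul]
      ring
    rw [h5]
    calc 2 ^ 10 * u ^ 6954 ≤ u ^ 10 * u ^ 6954 :=
          mul_le_mul_of_nonneg_right (pow_le_pow_left₀ (by norm_num) hu2 10) (by positivity)
      _ = u ^ 6964 := by rw [← pow_add]
  have h60 : (u ^ 60)⁻¹ ≤ α / 4 := by
    have h7 : (u ^ 60)⁻¹ ≤ (u ^ 58)⁻¹ / 4 := by
      rw [div_eq_mul_inv, ← mul_inv]
      apply inv_anti₀ (by positivity)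
      have h8 : (4 : ℝ) ≤ u ^ 2 := by nlinarith
      calc u ^ 58 * 4 ≤ u ^ 58 * u ^ 2 := mul_le_mul_of_nonneg_left h8 (by positivity)
        _ = u ^ 60 := by rw [← pow_add]
    linarith
  -- the exponents
  set l : ℝ := Real.logb 2 u with hl
  have hl1 : 1 ≤ l := by
    rw [hl, Real.le_logb_iff_rpow_le (by norm_num) hu0, Real.rpow_one]
    exact hu2
  obtain ⟨C0, hC0, hF⟩ := hFin (u ^ 6964) (one_le_pow₀ hu1)
  have hlog : Real.logb 2 (u ^ 6964) = 6964 * l := by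
    rw [Real.logb_pow, hl]
    norm_num
  rw [hlog] at hF
  set θ : ℝ := 1 / (1 + 8 * (6964 * l)) with hθ
  have hθ0 : 0 < θ := by positivity
  have hθ1 : θ ≤ 1 := by
    rw [hθ, div_le_one (by positivity)]
    nlinarith
  obtain ⟨C1, hC1, hD⟩ := dich2 (u ^ 366) (u ^ 6964) C0 θ hK1 hK' hF hC0 hθ0.le hθ1
  set δ : ℝ := θ / 2 - 1 / (120000 * l) with hδ
  have hδ0 : 0 < δ := by
    have h1 : θ / 2 = 1 / (2 * (1 + 8 * (6964 * l))) := by
      rw [hθ, div_div, mul_comm]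
    rw [hδ, sub_pos, h1]
    exact one_div_lt_one_div_of_lt (by positivity) (by nlinarith)
  set D : ℝ := C1 * (u ^ 60) ^ (θ / 2) with hDdef
  have hD0 : 0 < D := by positivity
  obtain ⟨n0, hn0⟩ := exists_nat_gt (D ^ (1 / δ))
  refine ⟨max n0 2, fun P T hn hT hk hq => ?_⟩
  have hP2 : 2 ≤ P.card := (le_max_right n0 2).trans hn
  obtain ⟨L0, hL0, h2, hmax⟩ := exists_max_line P hP2
  refine ⟨L0, hL0, ?_⟩
  have hPne : P.Nonempty := Finset.card_pos.1 (by omega)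
  have hn1 : (1 : ℝ) ≤ P.card := by exact_mod_cast hPne.card_pos
  have hnpos : (0 : ℝ) < P.card := by linarith
  obtain ⟨Θ, hΘ', hG⟩ := hstart P T hT hk hq
  have hΘ : η * (P.card : ℝ) ^ 3 ≤ Θ.card := by
    rw [hη, div_mul_eq_mul_div, div_le_iff₀ (by positivity)]
    linarith
  set r : ℝ := (((P : Set (ℝ × ℝ)) ∩ (L0 : Set (ℝ × ℝ))).ncard : ℝ) with hr
  have hr2 : (2 : ℝ) ≤ r := by
    rw [hr]
    exact_mod_cast h2
  have hr0 : 0 < r := by linarith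
  have hline : ∀ L : AffineSubspace ℝ (ℝ × ℝ), Module.finrank ℝ L.direction = 1 →
      (((P : Set (ℝ × ℝ)) ∩ (L : Set (ℝ × ℝ))).ncard : ℝ) ≤ r := by
    intro L hL
    rw [hr]
    exact_mod_cast hmax L hL
  have hmid : α / 4 * P.card ≤ ((C1 * r) ^ (1 / θ)) ^ 2 := by
    refine midG hG hPne η α (u ^ 366) _ hη0 (by rw [hα]; ring) hΘ hKα ?_
    intro F hFs X hX hXne hXX
    have h3 := half2 (u ^ 366) C1 θ hD P F hFs X hX hXne r (by linarith) hXX hline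
    have h4 : Real.sqrt X.card ≤ (C1 * r) ^ (1 / θ) := by
      have h5 := Real.rpow_le_rpow (by positivity) h3 (by positivity : (0 : ℝ) ≤ 1 / θ)
      rwa [← Real.rpow_mul (Real.sqrt_nonneg _), mul_one_div_cancel hθ0.ne', Real.rpow_one] at h5
    have h6 : (Real.sqrt X.card) ^ 2 ≤ ((C1 * r) ^ (1 / θ)) ^ 2 :=
      pow_le_pow_left₀ (Real.sqrt_nonneg _) h4 2
    rwa [Real.sq_sqrt (Nat.cast_nonneg _)] at h6
  have h9 : (u ^ 60)⁻¹ * P.card ≤ ((C1 * r) ^ (1 / θ)) ^ 2 :=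
    (mul_le_mul_of_nonneg_right h60 hnpos.le).trans hmid
  have h10 : ((u ^ 60)⁻¹ * P.card) ^ (θ / 2) ≤ C1 * r := by
    have h11 := Real.rpow_le_rpow (by positivity) h9 (by positivity : (0 : ℝ) ≤ θ / 2)
    have h12 : (((C1 * r) ^ (1 / θ)) ^ 2) ^ (θ / 2) = C1 * r := by
      rw [← Real.rpow_natCast, ← Real.rpow_mul (by positivity), ← Real.rpow_mul (by positivity)]
      have : 1 / θ * ((2 : ℕ) : ℝ) * (θ / 2) = 1 := by
        push_cast
        field_simp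
      rw [mul_assoc] at this
      rw [show 1 / θ * (((2 : ℕ) : ℝ) * (θ / 2)) = 1 from this, Real.rpow_one]
    rwa [h12] at h11
  rw [Real.mul_rpow (by positivity) hnpos.le, Real.inv_rpow (by positivity)] at h10
  have hg : 0 < (u ^ 60) ^ (θ / 2) := by positivity
  have h13 : (P.card : ℝ) ^ (θ / 2) ≤ D * r := by
    rw [inv_mul_le_iff₀ hg] at h10
    refine h10.trans (le_of_eq ?_)
    rw [hDdef]
    ring
  have hnD : D ^ (1 / δ) ≤ P.card := by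
    have h1 : n0 ≤ P.card := (le_max_left n0 2).trans hn
    exact hn0.le.trans (by exact_mod_cast h1)
  have h14 : D ≤ (P.card : ℝ) ^ δ := by
    have h2 := Real.rpow_le_rpow (by positivity) hnD hδ0.le
    rwa [← Real.rpow_mul hD0.le, one_div_mul_cancel hδ0.ne', Real.rpow_one] at h2
  have h15 : (P.card : ℝ) ^ (1 / (120000 * l)) * (P.card : ℝ) ^ δ = (P.card : ℝ) ^ (θ / 2) := by
    rw [← Real.rpow_add hnpos]
    congr 1
    rw [hδ]
    ring
  have h16 : (P.card : ℝ) ^ (1 / (120000 * l)) * D ≤ r * D := by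
    calc (P.card : ℝ) ^ (1 / (120000 * l)) * D
        ≤ (P.card : ℝ) ^ (1 / (120000 * l)) * (P.card : ℝ) ^ δ :=
          mul_le_mul_of_nonneg_left h14 (by positivity)
      _ = (P.card : ℝ) ^ (θ / 2) := h15
      _ ≤ D * r := h13
      _ = r * D := mul_comm _ _
  exact le_of_mul_le_mul_right h16 hD0

end Pool.Agent.QQ95
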